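import Pool.Agent.H.MP_f9087f_lc.C
import Pool.Agent.Lib.helper22.CXEtrB

namespace Pool.Agent.Results.MP_f9087f_lc.Hard

open Pool.Agent.Lib.CX Pool.Agent.Lib.ER Pool.Agent.H.MP_e14cd3_lc Pool.Agent.H.MP_f9087f_lc

/-- the unit linkage on the graph has a realization in `ℝ^d` -/
def UnitLink (d : ℕ) (a : Gr) : Prop :=
  ∃ p : Fin a.n → EuclideanSpace ℝ (Fin d), ∀ u v, a.G.Adj u v → dist (p u) (p v) = 1

def edges (d : ℕ) (a : List Unit × List Q4) :=
  expand (g2 d) (((d, true), (d, true)), d + 1) (((0, false), (0, false)), d + 1) (dbl (be d a.1.length a.2))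
    (ne d a.1.length)

theorem pt_edges (d : ℕ) : PT (edges d) := by
  unfold edges expand nm
  generalize g2 d = L
  unfold ne ap np dbl be bv vs es
  fun_prop

instance dec : DecidableEq ((Nd × Nd) × ((ℕ × Bool) × ℕ × Bool) × ℕ) := instDecidableEqProd

theorem result (d : ℕ) (h3 : 3 ≤ d) : Red ETR (UnitLink d) := by
  have := pt_edges d
  refine etr_of_bq (fun a => mkGr ((edges d a).flatMap fun e => [e.1, e.2]) (edges d a)) (by fun_prop)
    fun M E h0 hE => ⟨?_, ?_⟩
  · rintro ⟨x, x0, hx, h⟩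
    obtain ⟨z, -, hz⟩ := exp_complete (gad2 h3) (core_unit h3 h0 hE x0 h) (ne_dist h3 h0 x0 hx)
    obtain ⟨p, hp, -⟩ := real_to _ z hz
    exact ⟨p, hp⟩
  · rintro ⟨p, hp⟩
    have n := exp_ne (gad2 h3) (U := dbl (be d M.length E)) (N := ne d M.length) (by
      rw [all_dbl]
      exact fun e he s t q => (be_ok h0 hE e he).2.2 (congrArg Prod.fst q)) fun e he => (ne_ok h0 e he).2.2
    obtain ⟨y, hy, -⟩ := real_of (fun e he => ⟨List.mem_flatMap.2 ⟨e, he, by simp⟩, List.mem_flatMap.2 ⟨e, he, by simp⟩,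
      n e he⟩) p hp
    obtain ⟨h1, h2⟩ := exp_sound (gad2 h3) (U := dbl (be d M.length E)) (N := ne d M.length) (y := y) hy
    exact core_sound h3 h0 hE (fun v => y ((v, v), (((d, true), (d, true)), d + 1))) h1 h2

end Pool.Agent.Results.MP_f9087f_lc.Hard
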